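import Mathlib

/-!
# Weak `P_{κ⁺}`-points below products of ultrafilters on `κ`
-/

namespace Pool.Agent.Results.MP_96acc4_lc.WeakPPointsBelowProducts

open Set Filter Topology Cardinal

/-- Rudin-Keisler order: `u` is the image of `v` under some function. -/
def RKle {X Y : Type} (u : Ultrafilter Y) (v : Ultrafilter X) : Prop :=
  ∃ f : X → Y, u = v.map f

/-- The product `v ⊗ w`: a set `A` belongs to it iff for `v`-almost all `x`, for `w`-almost all
`y`, `(x, y) ∈ A`; see `mem_prodU`. -/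
def prodU {X Y : Type} (v : Ultrafilter X) (w : Ultrafilter Y) : Ultrafilter (X × Y) :=
  Ultrafilter.bind v fun x => Ultrafilter.map (Prod.mk x) w

theorem mem_prodU {X Y : Type} (v : Ultrafilter X) (w : Ultrafilter Y) (A : Set (X × Y)) :
    A ∈ prodU v w ↔ {x | {y | (x, y) ∈ A} ∈ w} ∈ v := Iff.rfl

/-- The iterated product `v₀ ⊗ (v₁ ⊗ (⋯ ⊗ vₙ))`, as an ultrafilter on the `(n + 1)`-tuples. -/
def iterProd {K : Type} : (n : ℕ) → (Fin (n + 1) → Ultrafilter K) → Ultrafilter (Fin (n + 1) → K)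
  | 0, v => (v 0).map fun a _ => a
  | n + 1, v => (prodU (v 0) (iterProd n fun i => v i.succ)).map
      fun p => (Fin.cons p.1 p.2 : Fin (n + 1 + 1) → K)

/-- `u` is a non-principal ultrafilter. -/
def NonPrincipal {X : Type} (u : Ultrafilter X) : Prop := ∀ x : X, u ≠ pure x

/-- `u` is a weak `P_{κ⁺}`-point of `ω*`: a non-principal ultrafilter on `ω` which is not in the
closure of any set of at most `κ` many other non-principal ultrafilters. -/
def IsWeakP (κ : Cardinal.{0}) (u : Ultrafilter ℕ) : Prop :=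
  NonPrincipal u ∧ ∀ F : Set (Ultrafilter ℕ), (∀ w ∈ F, NonPrincipal w ∧ w ≠ u) →
    #F ≤ κ → u ∉ closure F

theorem two_factors {κ : Cardinal.{0}} {u : Ultrafilter ℕ} (hu : IsWeakP κ u) {X Y : Type}
    (hX : #X ≤ κ) (v : Ultrafilter X) (w : Ultrafilter Y) (h : RKle u (prodU v w)) :
    RKle u v ∨ RKle u w := by
  classical
  obtain ⟨f, hf⟩ := h
  -- the sections
  have hmem : ∀ A : Set ℕ, A ∈ u ↔ {x | A ∈ w.map fun y => f (x, y)} ∈ v := by
    intro A
    rw [hf]
    exact Iff.rfl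
  by_cases h0 : ∃ x, w.map (fun y => f (x, y)) = u
  · obtain ⟨x, hx⟩ := h0
    exact Or.inr ⟨fun y => f (x, y), hx.symm⟩
  · left
    push Not at h0
    rcases v.em (fun x => NonPrincipal (w.map fun y => f (x, y))) with h1 | h2
    · exfalso
      refine hu.2 ((fun x => w.map fun y => f (x, y)) ''
        {x | NonPrincipal (w.map fun y => f (x, y))}) ?_ ?_ ?_
      · rintro _ ⟨x, hx, rfl⟩
        exact ⟨hx, h0 x⟩
      · exact (Cardinal.mk_image_le).trans ((Cardinal.mk_set_le _).trans hX)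
      · rw [(ultrafilterBasis_is_basis (α := ℕ)).mem_closure_iff]
        rintro _ ⟨A, rfl⟩ hA
        have h3 : {x | A ∈ w.map fun y => f (x, y)} ∈ v := (hmem A).1 hA
        obtain ⟨x, hx1, hx2⟩ := v.nonempty_of_mem (Filter.inter_mem h1 h3)
        exact ⟨_, hx2, x, hx1, rfl⟩
    · have h3 : ∀ x, ∃ n : ℕ, ¬ NonPrincipal (w.map fun y => f (x, y)) →
          w.map (fun y => f (x, y)) = pure n := by
        intro x
        by_cases hx : NonPrincipal (w.map fun y => f (x, y))
        · exact ⟨0, fun h => absurd hx h⟩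
        · unfold NonPrincipal at hx
          push Not at hx
          obtain ⟨n, hn⟩ := hx
          exact ⟨n, fun _ => hn⟩
      choose g hg using h3
      refine ⟨g, ?_⟩
      refine Ultrafilter.eq_of_le ?_
      intro A hA
      have hA' : g ⁻¹' A ∈ v := hA
      change A ∈ u
      rw [hmem]
      filter_upwards [h2, hA'] with x hx1 hx2
      rw [hg x hx1]
      exact hx2

theorem iter_factors {κ : Cardinal.{0}} {u : Ultrafilter ℕ} (hu : IsWeakP κ u) {K : Type}
    (hK : #K ≤ κ) : ∀ (n : ℕ) (v : Fin (n + 1) → Ultrafilter K), RKle u (iterProd n v) →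
      ∃ k, RKle u (v k)
  | 0, v, h => by
    obtain ⟨f, hf⟩ := h
    refine ⟨0, fun a => f fun _ => a, ?_⟩
    rw [hf, iterProd, Ultrafilter.map_map]
    rfl
  | n + 1, v, h => by
    obtain ⟨f, hf⟩ := h
    rw [iterProd, Ultrafilter.map_map] at hf
    rcases two_factors hu hK _ _ ⟨_, hf⟩ with h1 | h2
    · exact ⟨0, h1⟩
    · obtain ⟨k, hk⟩ := iter_factors hu hK n _ h2
      exact ⟨k.succ, hk⟩

/-- For every infinite cardinal `κ < 2^ω`, every weak `P_{κ⁺}`-point `u`, every `n ≥ 1` and all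
ultrafilters `v₀, …, vₙ` on `κ` (on any set `K` of cardinality `κ`), if `u` is Rudin-Keisler below
`v₀ ⊗ ⋯ ⊗ vₙ` then `u` is Rudin-Keisler below some `vₖ`. -/
theorem result : ∀ κ : Cardinal.{0}, ℵ₀ ≤ κ → κ < 𝔠 → ∀ u : Ultrafilter ℕ, IsWeakP κ u →
    ∀ n : ℕ, 1 ≤ n → ∀ K : Type, #K = κ → ∀ v : Fin (n + 1) → Ultrafilter K,
      RKle u (iterProd n v) → ∃ k, RKle u (v k) := by
  intro κ _ _ u hu n _ K hK v h
  exact iter_factors hu hK.le n v h

end Pool.Agent.Results.MP_96acc4_lc.WeakPPointsBelowProducts
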